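import Mathlib

set_option autoImplicit false

/-!
Operations on the languages of nondeterministic one-way automata: sizes.
-/

namespace Pool.Agent.R50.LX

/-- Paths of a nondeterministic one-way automaton. -/
def Pth {A X : Type} (s : A → X → X → Prop) : List A → X → X → Prop
  | [], x, y => x = y
  | a :: l, x, y => ∃ z, s a x z ∧ Pth s l z y

theorem Pth_append {A X : Type} {s : A → X → X → Prop} (u v : List A) (x y : X) :
    Pth s (u ++ v) x y ↔ ∃ z, Pth s u x z ∧ Pth s v z y := by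
  induction u generalizing x with
  | nil => simp [Pth]
  | cons a u ih =>
    simp only [List.cons_append, Pth]
    constructor
    · rintro ⟨z, h1, h2⟩
      obtain ⟨z', h3, h4⟩ := (ih _).1 h2
      exact ⟨z', ⟨z, h1, h3⟩, h4⟩
    · rintro ⟨z', ⟨z, h1, h3⟩, h4⟩
      exact ⟨z, h1, (ih _).2 ⟨z', h3, h4⟩⟩

/-- `L` is the language of a nondeterministic one-way automaton with at most `N` states. -/
def Acc {A : Type} (L : Set (List A)) (N : ℕ) : Prop :=
  ∃ (X : Type) (_ : Finite X) (I F : Set X) (s : A → X → X → Prop), Nat.card X ≤ N ∧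
    ∀ w, w ∈ L ↔ ∃ x ∈ I, ∃ y ∈ F, Pth s w x y

theorem Acc.mono {A : Type} {L : Set (List A)} {N N' : ℕ} (h : Acc L N) (hN : N ≤ N') :
    Acc L N' := by
  obtain ⟨X, hX, I, F, s, h1, h2⟩ := h
  exact ⟨X, hX, I, F, s, h1.trans hN, h2⟩

/-- Union. -/
theorem Acc.union {A : Type} {L L' : Set (List A)} {N N' : ℕ} (h : Acc L N) (h' : Acc L' N') :
    Acc (L ∪ L') (N + N') := by
  obtain ⟨X, hX, I, F, s, h1, h2⟩ := h
  obtain ⟨Y, hY, J, G, t, h3, h4⟩ := h'
  let st : A → X ⊕ Y → X ⊕ Y → Prop := fun a z z' => match z, z' with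
    | .inl x, .inl x' => s a x x'
    | .inr y, .inr y' => t a y y'
    | _, _ => False
  have kl : ∀ (w : List A) (x : X) (z : X ⊕ Y), Pth st w (.inl x) z ↔
      ∃ x', z = .inl x' ∧ Pth s w x x' := by
    intro w
    induction w with
    | nil =>
      intro x z
      constructor
      · intro h
        exact ⟨x, h.symm, rfl⟩
      · rintro ⟨x', rfl, h⟩
        exact congrArg Sum.inl h
    | cons a w ih =>
      intro x z
      constructor
      · rintro ⟨z', hz, hp⟩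
        rcases z' with x' | y'
        · obtain ⟨x'', e, hp'⟩ := (ih _ _).1 hp
          exact ⟨x'', e, x', hz, hp'⟩
        · exact hz.elim
      · rintro ⟨x', rfl, z', hz, hp⟩
        exact ⟨.inl z', hz, (ih _ _).2 ⟨x', rfl, hp⟩⟩
  have kr : ∀ (w : List A) (y : Y) (z : X ⊕ Y), Pth st w (.inr y) z ↔
      ∃ y', z = .inr y' ∧ Pth t w y y' := by
    intro w
    induction w with
    | nil =>
      intro x z
      constructor
      · intro h
        exact ⟨x, h.symm, rfl⟩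
      · rintro ⟨x', rfl, h⟩
        exact congrArg Sum.inr h
    | cons a w ih =>
      intro x z
      constructor
      · rintro ⟨z', hz, hp⟩
        rcases z' with x' | y'
        · exact hz.elim
        · obtain ⟨x'', e, hp'⟩ := (ih _ _).1 hp
          exact ⟨x'', e, y', hz, hp'⟩
      · rintro ⟨x', rfl, z', hz, hp⟩
        exact ⟨.inr z', hz, (ih _ _).2 ⟨x', rfl, hp⟩⟩
  refine ⟨X ⊕ Y, inferInstance, Sum.elim I J, Sum.elim F G, st, ?_, fun w => ?_⟩
  · rw [Nat.card_sum]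
    omega
  · rw [Set.mem_union, h2, h4]
    constructor
    · rintro (⟨x, hx, y, hy, hp⟩ | ⟨x, hx, y, hy, hp⟩)
      · exact ⟨.inl x, hx, .inl y, hy, (kl _ _ _).2 ⟨y, rfl, hp⟩⟩
      · exact ⟨.inr x, hx, .inr y, hy, (kr _ _ _).2 ⟨y, rfl, hp⟩⟩
    · rintro ⟨x | x, hx, y, hy, hp⟩
      · obtain ⟨x', rfl, hp'⟩ := (kl _ _ _).1 hp
        exact Or.inl ⟨x, hx, x', hy, hp'⟩
      · obtain ⟨x', rfl, hp'⟩ := (kr _ _ _).1 hp
        exact Or.inr ⟨x, hx, x', hy, hp'⟩

/-- Intersection. -/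
theorem Acc.inter {A : Type} {L L' : Set (List A)} {N N' : ℕ} (h : Acc L N) (h' : Acc L' N') :
    Acc (L ∩ L') (N * N') := by
  obtain ⟨X, hX, I, F, s, h1, h2⟩ := h
  obtain ⟨Y, hY, J, G, t, h3, h4⟩ := h'
  let st : A → X × Y → X × Y → Prop := fun a z z' => s a z.1 z'.1 ∧ t a z.2 z'.2
  have k : ∀ (w : List A) (x : X × Y) (z : X × Y), Pth st w x z ↔
      Pth s w x.1 z.1 ∧ Pth t w x.2 z.2 := by
    intro w
    induction w with
    | nil =>
      intro x z
      exact Prod.ext_iff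
    | cons a w ih =>
      intro x z
      constructor
      · rintro ⟨z', hz, hp⟩
        rw [ih] at hp
        exact ⟨⟨_, hz.1, hp.1⟩, ⟨_, hz.2, hp.2⟩⟩
      · rintro ⟨⟨z1, a1, b1⟩, ⟨z2, a2, b2⟩⟩
        exact ⟨(z1, z2), ⟨a1, a2⟩, (ih _ _).2 ⟨b1, b2⟩⟩
  refine ⟨X × Y, inferInstance, I ×ˢ J, F ×ˢ G, st, ?_, fun w => ?_⟩
  · rw [Nat.card_prod]
    exact Nat.mul_le_mul h1 h3
  · rw [Set.mem_inter_iff, h2, h4]
    constructor
    · rintro ⟨⟨x, hx, y, hy, hp⟩, ⟨x', hx', y', hy', hp'⟩⟩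
      exact ⟨(x, x'), ⟨hx, hx'⟩, (y, y'), ⟨hy, hy'⟩, (k _ _ _).2 ⟨hp, hp'⟩⟩
    · rintro ⟨x, hx, y, hy, hp⟩
      rw [k] at hp
      exact ⟨⟨_, hx.1, _, hy.1, hp.1⟩, ⟨_, hx.2, _, hy.2, hp.2⟩⟩

/-- `w` is an interleaving of `u` and `v`. -/
inductive Shuf {A : Type} : List A → List A → List A → Prop
  | nil : Shuf [] [] []
  | left (a : A) (u v w : List A) : Shuf u v w → Shuf (a :: u) v (a :: w)
  | right (a : A) (u v w : List A) : Shuf u v w → Shuf u (a :: v) (a :: w)

/-- Shuffle. -/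
theorem Acc.shuffle {A : Type} {L L' : Set (List A)} {N N' : ℕ} (h : Acc L N)
    (h' : Acc L' N') : Acc {w | ∃ u ∈ L, ∃ v ∈ L', Shuf u v w} (N * N') := by
  obtain ⟨X, hX, I, F, s, h1, h2⟩ := h
  obtain ⟨Y, hY, J, G, t, h3, h4⟩ := h'
  let st : A → X × Y → X × Y → Prop := fun a z z' =>
    (s a z.1 z'.1 ∧ z.2 = z'.2) ∨ (z.1 = z'.1 ∧ t a z.2 z'.2)
  have k : ∀ (w : List A) (x : X × Y) (z : X × Y), Pth st w x z ↔
      ∃ u v, Shuf u v w ∧ Pth s u x.1 z.1 ∧ Pth t v x.2 z.2 := by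
    intro w
    induction w with
    | nil =>
      intro x z
      constructor
      · intro h
        have h' : x = z := h
        subst h'
        exact ⟨[], [], .nil, rfl, rfl⟩
      · rintro ⟨u, v, hs, hp, hq⟩
        cases hs
        exact Prod.ext hp hq
    | cons a w ih =>
      intro x z
      constructor
      · rintro ⟨z', hz, hp⟩
        obtain ⟨u, v, hs, hp, hq⟩ := (ih _ _).1 hp
        rcases hz with ⟨hz, he⟩ | ⟨he, hz⟩
        · refine ⟨a :: u, v, .left _ _ _ _ hs, ⟨_, hz, hp⟩, ?_⟩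
          rw [he]
          exact hq
        · refine ⟨u, a :: v, .right _ _ _ _ hs, ?_, ⟨_, hz, hq⟩⟩
          rw [he]
          exact hp
      · rintro ⟨u, v, hs, hp, hq⟩
        cases hs with
        | left _ u _ _ hs =>
          obtain ⟨z', hz, hp'⟩ := hp
          exact ⟨(z', x.2), Or.inl ⟨hz, rfl⟩, (ih _ _).2 ⟨u, v, hs, hp', hq⟩⟩
        | right _ _ v _ hs =>
          obtain ⟨z', hz, hq'⟩ := hq
          exact ⟨(x.1, z'), Or.inr ⟨rfl, hz⟩, (ih _ _).2 ⟨u, v, hs, hp, hq'⟩⟩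
  refine ⟨X × Y, inferInstance, I ×ˢ J, F ×ˢ G, st, ?_, fun w => ?_⟩
  · rw [Nat.card_prod]
    exact Nat.mul_le_mul h1 h3
  · rw [Set.mem_ofPred_eq]
    constructor
    · rintro ⟨u, hu, v, hv, hs⟩
      rw [h2] at hu
      rw [h4] at hv
      obtain ⟨x, hx, y, hy, hp⟩ := hu
      obtain ⟨x', hx', y', hy', hp'⟩ := hv
      exact ⟨(x, x'), ⟨hx, hx'⟩, (y, y'), ⟨hy, hy'⟩, (k _ _ _).2 ⟨u, v, hs, hp, hp'⟩⟩
    · rintro ⟨x, hx, y, hy, hp⟩
      rw [k] at hp
      obtain ⟨u, v, hs, hp, hq⟩ := hp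
      exact ⟨u, (h2 _).2 ⟨_, hx.1, _, hy.1, hp⟩, v, (h4 _).2 ⟨_, hx.2, _, hy.2, hq⟩, hs⟩

/-- Concatenation. -/
theorem Acc.conc {A : Type} {L L' : Set (List A)} {N N' : ℕ} (h : Acc L N) (h' : Acc L' N') :
    Acc {w | ∃ u ∈ L, ∃ v ∈ L', u ++ v = w} (N + N') := by
  obtain ⟨X, hX, I, F, s, h1, h2⟩ := h
  obtain ⟨Y, hY, J, G, t, h3, h4⟩ := h'
  let st : A → X ⊕ Y → X ⊕ Y → Prop := fun a z z' => match z, z' with
    | .inl x, .inl x' => s a x x'
    | .inl x, .inr y' => x ∈ F ∧ ∃ y ∈ J, t a y y'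
    | .inr y, .inr y' => t a y y'
    | .inr _, .inl _ => False
  have kr : ∀ (w : List A) (y : Y) (z : X ⊕ Y), Pth st w (.inr y) z ↔
      ∃ y', z = .inr y' ∧ Pth t w y y' := by
    intro w
    induction w with
    | nil =>
      intro x z
      constructor
      · intro h
        exact ⟨x, h.symm, rfl⟩
      · rintro ⟨x', rfl, h⟩
        exact congrArg Sum.inr h
    | cons a w ih =>
      intro x z
      constructor
      · rintro ⟨z', hz, hp⟩
        rcases z' with x' | y'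
        · exact hz.elim
        · obtain ⟨x'', e, hp'⟩ := (ih _ _).1 hp
          exact ⟨x'', e, y', hz, hp'⟩
      · rintro ⟨x', rfl, z', hz, hp⟩
        exact ⟨.inr z', hz, (ih _ _).2 ⟨x', rfl, hp⟩⟩
  have kll : ∀ (w : List A) (x x' : X), Pth st w (.inl x) (.inl x') ↔ Pth s w x x' := by
    intro w
    induction w with
    | nil =>
      intro x x'
      exact ⟨fun h => Sum.inl.inj h, fun h => congrArg Sum.inl h⟩
    | cons a w ih =>
      intro x x'
      constructor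
      · rintro ⟨z', hz, hp⟩
        rcases z' with z' | z'
        · exact ⟨z', hz, (ih _ _).1 hp⟩
        · obtain ⟨y', e, _⟩ := (kr _ _ _).1 hp
          exact absurd e (by simp)
      · rintro ⟨z', hz, hp⟩
        exact ⟨.inl z', hz, (ih _ _).2 hp⟩
  have klr : ∀ (w : List A) (x : X) (y' : Y), Pth st w (.inl x) (.inr y') ↔
      ∃ u a v, w = u ++ a :: v ∧ ∃ x1 ∈ F, Pth s u x x1 ∧ ∃ y ∈ J, Pth t (a :: v) y y' := by
    intro w
    induction w with
    | nil =>
      intro x y'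
      constructor
      · intro h
        exact absurd h (by simp [Pth])
      · rintro ⟨u, a, v, h, _⟩
        exact absurd h (by simp)
    | cons a w ih =>
      intro x y'
      constructor
      · rintro ⟨z', hz, hp⟩
        rcases z' with z' | z'
        · obtain ⟨u, b, v, e, x1, hx1, hu, hy⟩ := (ih _ _).1 hp
          exact ⟨a :: u, b, v, by rw [e]; rfl, x1, hx1, ⟨z', hz, hu⟩, hy⟩
        · obtain ⟨y'', e, hp'⟩ := (kr _ _ _).1 hp
          cases e
          obtain ⟨hx, y, hy, ht⟩ := hz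
          exact ⟨[], a, w, rfl, x, hx, rfl, y, hy, z', ht, hp'⟩
      · rintro ⟨u, b, v, e, x1, hx1, hu, y, hy, hv⟩
        cases u with
        | nil =>
          rw [List.nil_append] at e
          cases e
          have hu' : x = x1 := hu
          subst hu'
          obtain ⟨z, hz, hp⟩ := hv
          exact ⟨.inr z, ⟨hx1, y, hy, hz⟩, (kr _ _ _).2 ⟨y', rfl, hp⟩⟩
        | cons c u =>
          rw [List.cons_append] at e
          cases e
          obtain ⟨z, hz, hp⟩ := hu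
          exact ⟨.inl z, hz, (ih _ _).2 ⟨u, b, v, rfl, x1, hx1, hp, y, hy, hv⟩⟩
  refine ⟨X ⊕ Y, inferInstance, {z | ∃ x ∈ I, z = .inl x},
    {z | (∃ y ∈ G, z = .inr y) ∨ ∃ x ∈ F, z = .inl x ∧ ∃ y ∈ J, y ∈ G}, st, ?_, fun w => ?_⟩
  · rw [Nat.card_sum]
    omega
  · rw [Set.mem_ofPred_eq]
    constructor
    · rintro ⟨u, hu, v, hv, rfl⟩
      obtain ⟨x, hx, x1, hx1, hp⟩ := (h2 _).1 hu
      obtain ⟨y, hy, y1, hy1, hq⟩ := (h4 _).1 hv
      cases v with
      | nil =>
        have hq' : y = y1 := hq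
        subst hq'
        refine ⟨.inl x, ⟨x, hx, rfl⟩, .inl x1, Or.inr ⟨x1, hx1, rfl, y, hy, hy1⟩, ?_⟩
        rw [List.append_nil]
        exact (kll _ _ _).2 hp
      | cons a v =>
        exact ⟨.inl x, ⟨x, hx, rfl⟩, .inr y1, Or.inl ⟨y1, hy1, rfl⟩,
          (klr _ _ _).2 ⟨u, a, v, rfl, x1, hx1, hp, y, hy, hq⟩⟩
    · rintro ⟨_, ⟨x, hx, rfl⟩, z, (⟨y, hy, rfl⟩ | ⟨x1, hx1, rfl, y, hy, hyG⟩), hp⟩
      · obtain ⟨u, a, v, e, x1, hx1, hu, y0, hy0, hv⟩ := (klr _ _ _).1 hp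
        exact ⟨u, (h2 _).2 ⟨x, hx, x1, hx1, hu⟩, a :: v, (h4 _).2 ⟨y0, hy0, y, hy, hv⟩, e.symm⟩
      · exact ⟨w, (h2 _).2 ⟨x, hx, x1, hx1, (kll _ _ _).1 hp⟩, [],
          (h4 _).2 ⟨y, hy, y, hyG, rfl⟩, List.append_nil w⟩

/-- Kleene star. -/
theorem Acc.star {A : Type} {L : Set (List A)} {N : ℕ} (h : Acc L N) :
    Acc {w | ∃ l : List (List A), (∀ v ∈ l, v ∈ L) ∧ l.flatten = w} (N + 1) := by
  obtain ⟨X, hX, I, F, s, h1, h2⟩ := h
  let st : A → Option X → Option X → Prop := fun a z z' => match z, z' with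
    | none, some x' => ∃ x ∈ I, s a x x'
    | some x, some x' => s a x x' ∨ (x ∈ F ∧ ∃ x0 ∈ I, s a x0 x')
    | _, none => False
  have kn : ∀ (w : List A) (x : X), ¬ Pth st w (some x) none := by
    intro w
    induction w with
    | nil => intro x h; exact absurd h (by simp [Pth])
    | cons a w ih =>
      rintro x ⟨z, hz, hp⟩
      cases z with
      | none => exact hz
      | some z => exact ih z hp
  have lift : ∀ (w : List A) (x y : X), Pth s w x y → Pth st w (some x) (some y) := by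
    intro w
    induction w with
    | nil => intro x y h; exact congrArg some h
    | cons a w ih =>
      rintro x y ⟨z, hz, hp⟩
      exact ⟨some z, Or.inl hz, ih _ _ hp⟩
  have fw : ∀ (w : List A) (x y : X), y ∈ F → Pth st w (some x) (some y) →
      ∃ u l, w = u ++ List.flatten l ∧ (∃ y ∈ F, Pth s u x y) ∧ ∀ v ∈ l, v ∈ L := by
    intro w
    induction w with
    | nil =>
      intro x y hy h
      have h' : x = y := Option.some.inj h
      subst h'
      exact ⟨[], [], rfl, ⟨x, hy, rfl⟩, by simp⟩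
    | cons a w ih =>
      rintro x y hy ⟨z, hz, hp⟩
      cases z with
      | none => exact hz.elim
      | some z =>
        obtain ⟨u, l, e, ⟨y', hy', hu⟩, hl⟩ := ih z y hy hp
        rcases hz with hz | ⟨hx, x0, hx0, hz⟩
        · exact ⟨a :: u, l, by rw [e]; rfl, ⟨y', hy', z, hz, hu⟩, hl⟩
        · refine ⟨[], (a :: u) :: l, by rw [e]; simp, ⟨x, hx, rfl⟩, ?_⟩
          intro v hv
          rcases List.mem_cons.1 hv with rfl | hv
          · exact (h2 _).2 ⟨x0, hx0, y', hy', z, hz, hu⟩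
          · exact hl v hv
  have bw : ∀ (l : List (List A)) (x : X), x ∈ F → (∀ v ∈ l, v ∈ L) →
      ∃ y ∈ F, Pth st l.flatten (some x) (some y) := by
    intro l
    induction l with
    | nil => intro x hx _; exact ⟨x, hx, rfl⟩
    | cons v l ih =>
      intro x hx hl
      have hv : v ∈ L := hl v (by simp)
      have hl' : ∀ v ∈ l, v ∈ L := fun v hv => hl v (by simp [hv])
      obtain ⟨x0, hx0, y0, hy0, hp⟩ := (h2 _).1 hv
      cases v with
      | nil =>
        obtain ⟨y, hy, hp'⟩ := ih x hx hl'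
        exact ⟨y, hy, by simpa using hp'⟩
      | cons a v =>
        obtain ⟨z, hz, hp⟩ := hp
        obtain ⟨y, hy, hp'⟩ := ih y0 hy0 hl'
        refine ⟨y, hy, ?_⟩
        rw [List.flatten_cons, List.cons_append]
        exact ⟨some z, Or.inr ⟨hx, x0, hx0, hz⟩,
          (Pth_append _ _ _ _).2 ⟨some y0, lift _ _ _ hp, hp'⟩⟩
  refine ⟨Option X, inferInstance, {none}, {z | z = none ∨ ∃ y ∈ F, z = some y}, st, ?_,
    fun w => ?_⟩
  · rw [Finite.card_option]
    omega
  · rw [Set.mem_ofPred_eq]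
    constructor
    · rintro ⟨l, hl, rfl⟩
      induction l with
      | nil => exact ⟨none, rfl, none, Or.inl rfl, rfl⟩
      | cons v l ih =>
        have hl' : ∀ v ∈ l, v ∈ L := fun v hv => hl v (by simp [hv])
        obtain ⟨x0, hx0, y0, hy0, hp⟩ := (h2 _).1 (hl v (by simp))
        cases v with
        | nil =>
          rw [List.flatten_cons, List.nil_append]
          exact ih hl'
        | cons a v =>
          obtain ⟨z, hz, hp⟩ := hp
          obtain ⟨y, hy, hp'⟩ := bw l y0 hy0 hl'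
          refine ⟨none, rfl, some y, Or.inr ⟨y, hy, rfl⟩, ?_⟩
          rw [List.flatten_cons, List.cons_append]
          exact ⟨some z, ⟨x0, hx0, hz⟩,
            (Pth_append _ _ _ _).2 ⟨some y0, lift _ _ _ hp, hp'⟩⟩
    · rintro ⟨_, rfl, z, hz, hp⟩
      cases w with
      | nil => exact ⟨[], by simp, rfl⟩
      | cons a w =>
        obtain ⟨z', hz', hp'⟩ := hp
        cases z' with
        | none => exact hz'.elim
        | some z' =>
          obtain ⟨x0, hx0, hs⟩ := hz'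
          rcases hz with rfl | ⟨y, hy, rfl⟩
          · exact absurd hp' (kn _ _)
          · obtain ⟨u, l, e, ⟨y', hy', hu⟩, hl⟩ := fw w z' y hy hp'
            refine ⟨(a :: u) :: l, ?_, by rw [e]; simp⟩
            intro v hv
            rcases List.mem_cons.1 hv with rfl | hv
            · exact (h2 _).2 ⟨x0, hx0, y', hy', z', hs, hu⟩
            · exact hl v hv

/-- Reversal. -/
theorem Acc.rev {A : Type} {L : Set (List A)} {N : ℕ} (h : Acc L N) :
    Acc {w | w.reverse ∈ L} N := by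
  obtain ⟨X, hX, I, F, s, h1, h2⟩ := h
  have k : ∀ (w : List A) (x y : X), Pth s w.reverse y x ↔ Pth (fun a x y => s a y x) w x y := by
    intro w
    induction w with
    | nil => intro x y; exact eq_comm
    | cons a w ih =>
      intro x y
      rw [List.reverse_cons, Pth_append]
      constructor
      · rintro ⟨z, hz, z', hz', e⟩
        have e' : z' = x := e
        subst e'
        exact ⟨z, hz', (ih _ _).1 hz⟩
      · rintro ⟨z, hz, hp⟩
        exact ⟨z, (ih _ _).2 hp, x, hz, rfl⟩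
  refine ⟨X, hX, F, I, fun a x y => s a y x, h1, fun w => ?_⟩
  rw [Set.mem_ofPred_eq, h2]
  constructor
  · rintro ⟨x, hx, y, hy, hp⟩
    exact ⟨y, hy, x, hx, (k _ _ _).1 hp⟩
  · rintro ⟨x, hx, y, hy, hp⟩
    exact ⟨y, hy, x, hx, (k _ _ _).2 hp⟩

/-- `Out R w t v t'`: a transducer with the states `T` can read `w`, move from `t` to `t'` and
output `v`; in one step from `t` to `t'` reading the letter `a` it outputs an arbitrary element of
`R a t t'`. -/
def Out {A B T : Type} (R : A → T → T → Set (List B)) : List A → T → List B → T → Prop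
  | [], t, v, t' => v = [] ∧ t = t'
  | a :: w, t, v, t' => ∃ t1, ∃ v1 ∈ R a t t1, ∃ v2, Out R w t1 v2 t' ∧ v = v1 ++ v2

/-- The words on which the transducer can output an element of `L`: `P t` and `Q t` are the sets of
the words which can be output before the first step, if `t` is the first state, and after the last
step, if `t` is the last state. -/
def Pre {A B T : Type} (R : A → T → T → Set (List B)) (P Q : T → Set (List B))
    (L : Set (List B)) : Set (List A) :=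
  {w | ∃ t t' : T, ∃ v0 ∈ P t, ∃ v, Out R w t v t' ∧ ∃ v1 ∈ Q t', v0 ++ (v ++ v1) ∈ L}

/-- Preimage under a transduction. -/
theorem Acc.trans {A B T : Type} [Finite T] (R : A → T → T → Set (List B))
    (P Q : T → Set (List B)) {L : Set (List B)} {N : ℕ} (h : Acc L N) :
    Acc (Pre R P Q L) (N * Nat.card T) := by
  obtain ⟨X, hX, I, F, s, h1, h2⟩ := h
  let st : A → X × T → X × T → Prop := fun a z z' => ∃ v ∈ R a z.2 z'.2, Pth s v z.1 z'.1
  have k : ∀ (w : List A) (z z' : X × T), Pth st w z z' ↔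
      ∃ v, Out R w z.2 v z'.2 ∧ Pth s v z.1 z'.1 := by
    intro w
    induction w with
    | nil =>
      intro z z'
      constructor
      · intro h
        have h' : z = z' := h
        subst h'
        exact ⟨[], ⟨rfl, rfl⟩, rfl⟩
      · rintro ⟨v, ⟨rfl, ht⟩, hp⟩
        exact Prod.ext hp ht
    | cons a w ih =>
      intro z z'
      constructor
      · rintro ⟨z1, ⟨v1, hv1, hp1⟩, hp⟩
        obtain ⟨v2, ho, hp2⟩ := (ih _ _).1 hp
        exact ⟨v1 ++ v2, ⟨z1.2, v1, hv1, v2, ho, rfl⟩, (Pth_append _ _ _ _).2 ⟨z1.1, hp1, hp2⟩⟩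
      · rintro ⟨v, ⟨t1, v1, hv1, v2, ho, rfl⟩, hp⟩
        obtain ⟨x1, hp1, hp2⟩ := (Pth_append _ _ _ _).1 hp
        exact ⟨(x1, t1), ⟨v1, hv1, hp1⟩, (ih _ _).2 ⟨v2, ho, hp2⟩⟩
  refine ⟨X × T, inferInstance, {z | ∃ v ∈ P z.2, ∃ x ∈ I, Pth s v x z.1},
    {z | ∃ v ∈ Q z.2, ∃ y ∈ F, Pth s v z.1 y}, st, ?_, fun w => ?_⟩
  · rw [Nat.card_prod]
    exact Nat.mul_le_mul_right _ h1
  · constructor
    · rintro ⟨t, t', v0, hv0, v, ho, v1, hv1, hL⟩
      obtain ⟨x, hx, y, hy, hp⟩ := (h2 _).1 hL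
      obtain ⟨x1, hp0, hp⟩ := (Pth_append _ _ _ _).1 hp
      obtain ⟨x2, hp, hp1⟩ := (Pth_append _ _ _ _).1 hp
      exact ⟨(x1, t), ⟨v0, hv0, x, hx, hp0⟩, (x2, t'), ⟨v1, hv1, y, hy, hp1⟩,
        (k _ _ _).2 ⟨v, ho, hp⟩⟩
    · rintro ⟨z, ⟨v0, hv0, x, hx, hp0⟩, z', ⟨v1, hv1, y, hy, hp1⟩, hp⟩
      obtain ⟨v, ho, hp⟩ := (k _ _ _).1 hp
      exact ⟨z.2, z'.2, v0, hv0, v, ho, v1, hv1, (h2 _).2 ⟨x, hx, y, hy,
        (Pth_append _ _ _ _).2 ⟨z.1, hp0, (Pth_append _ _ _ _).2 ⟨z'.1, hp, hp1⟩⟩⟩⟩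

end Pool.Agent.R50.LX
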