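import Mathlib
import Pool.Agent.R50.LX.Ops
import Pool.Agent.R620.KV.Comb
import Pool.Agent.TH705.LB.Lower

set_option autoImplicit false

/-!
Expressions over 1-limited automata and their determinization.
-/

namespace Pool.Agent.R50.LX

open Pool.Agent.H630R2.LA
open Pool.Agent.Y527.LA (Steps)

/-- Expressions over 1-limited automata (and one-way nondeterministic automata). The index is the
alphabet. -/
inductive Expr : Type → Type 1
  | la {A : Type} (M : LimAut A) : Expr A
  | nfa {A : Type} (S : Type) (hS : Finite S) (X : NFA A S) : Expr A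
  | union {A : Type} (e f : Expr A) : Expr A
  | inter {A : Type} (e f : Expr A) : Expr A
  | conc {A : Type} (e f : Expr A) : Expr A
  | shuffle {A : Type} (e f : Expr A) : Expr A
  | star {A : Type} (e : Expr A) : Expr A
  | rev {A : Type} (e : Expr A) : Expr A
  | trans {A B : Type} (T : Type) (hT : Finite T) (R : A → T → T → Set (List B))
      (P Q : T → Set (List B)) (e : Expr B) : Expr A

/-- The language of an expression. -/
def Expr.lang (strict : Prop) : {A : Type} → Expr A → Set (List A)
  | _, .la M => M.language strict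
  | _, .nfa _ _ X => {w | w ∈ X.accepts}
  | _, .union e f => e.lang strict ∪ f.lang strict
  | _, .inter e f => e.lang strict ∩ f.lang strict
  | _, .conc e f => {w | ∃ u ∈ e.lang strict, ∃ v ∈ f.lang strict, u ++ v = w}
  | _, .shuffle e f => {w | ∃ u ∈ e.lang strict, ∃ v ∈ f.lang strict, Shuf u v w}
  | _, .star e => {w | ∃ l : List (List _), (∀ v ∈ l, v ∈ e.lang strict) ∧ l.flatten = w}
  | _, .rev e => {w | w.reverse ∈ e.lang strict}
  | _, .trans _ _ R P Q e => Pre R P Q (e.lang strict)

/-- The size of an expression. -/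
noncomputable def Expr.size : {A : Type} → Expr A → ℕ
  | _, .la M => M.size
  | A, .nfa S _ _ => Nat.card S + Nat.card A + 1
  | _, .union e f => e.size + f.size + 1
  | _, .inter e f => e.size + f.size + 1
  | _, .conc e f => e.size + f.size + 1
  | _, .shuffle e f => e.size + f.size + 1
  | _, .star e => e.size + 1
  | _, .rev e => e.size + 1
  | A, .trans T _ _ _ _ e => e.size + Nat.card T + Nat.card A + 1

/-- The weight of an expression: `q ^ 2 + q` for a 1-limited automaton with `q` states,
`⌈log₂ s⌉ + 1` for a one-way nondeterministic automaton with `s` states, `1` for a star, `⌈log₂ t⌉`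
for a transducer with `t` states, `0` for the other operations. -/
noncomputable def Expr.weight : {A : Type} → Expr A → ℕ
  | _, .la M => Nat.card M.Q ^ 2 + Nat.card M.Q
  | _, .nfa S _ _ => Nat.clog 2 (Nat.card S) + 1
  | _, .union e f => e.weight + f.weight
  | _, .inter e f => e.weight + f.weight
  | _, .conc e f => e.weight + f.weight
  | _, .shuffle e f => e.weight + f.weight
  | _, .star e => e.weight + 1
  | _, .rev e => e.weight
  | _, .trans T _ _ _ _ e => e.weight + Nat.clog 2 (Nat.card T)

theorem pos_states {A : Type} (M : LimAut A) : 1 ≤ Nat.card M.Q := by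
  have := M.finQ
  have : Nonempty M.Q := ⟨M.q0⟩
  exact Nat.card_pos

theorem Expr.weight_pos : ∀ {A : Type} (e : Expr A), 1 ≤ e.weight
  | _, .la M => by
    have := pos_states M
    simp only [Expr.weight]
    omega
  | _, .nfa _ _ _ => by simp only [Expr.weight]; omega
  | _, .union e f => by have := e.weight_pos; simp only [Expr.weight]; omega
  | _, .inter e f => by have := e.weight_pos; simp only [Expr.weight]; omega
  | _, .conc e f => by have := e.weight_pos; simp only [Expr.weight]; omega
  | _, .shuffle e f => by have := e.weight_pos; simp only [Expr.weight]; omega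
  | _, .star e => by simp only [Expr.weight]; omega
  | _, .rev e => by have := e.weight_pos; simp only [Expr.weight]; omega
  | _, .trans _ _ _ _ _ e => by have := e.weight_pos; simp only [Expr.weight]; omega

theorem size_states {A : Type} (M : LimAut A) : Nat.card M.Q + Nat.card A + 3 ≤ M.size := by
  unfold LimAut.size
  omega

theorem Expr.weight_le : ∀ {A : Type} (e : Expr A), e.weight ≤ e.size ^ 2 ∧
    Nat.card A ≤ e.size ∧ 1 ≤ e.size
  | _, .la M => by
    have h1 := size_states M
    simp only [Expr.weight, Expr.size]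
    refine ⟨?_, by omega, by omega⟩
    nlinarith
  | _, .nfa S _ _ => by
    have h1 : Nat.clog 2 (Nat.card S) ≤ Nat.card S :=
      Nat.clog_le_of_le_pow (Nat.lt_two_pow_self).le
    simp only [Expr.weight, Expr.size]
    refine ⟨?_, by omega, by omega⟩
    refine le_trans ?_ (Nat.le_self_pow (by norm_num) _)
    omega
  | _, .union e f => by
    obtain ⟨h1, h2, h3⟩ := e.weight_le
    obtain ⟨h4, h5, h6⟩ := f.weight_le
    simp only [Expr.weight, Expr.size]
    refine ⟨?_, by omega, by omega⟩
    nlinarith
  | _, .inter e f => by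
    obtain ⟨h1, h2, h3⟩ := e.weight_le
    obtain ⟨h4, h5, h6⟩ := f.weight_le
    simp only [Expr.weight, Expr.size]
    refine ⟨?_, by omega, by omega⟩
    nlinarith
  | _, .conc e f => by
    obtain ⟨h1, h2, h3⟩ := e.weight_le
    obtain ⟨h4, h5, h6⟩ := f.weight_le
    simp only [Expr.weight, Expr.size]
    refine ⟨?_, by omega, by omega⟩
    nlinarith
  | _, .shuffle e f => by
    obtain ⟨h1, h2, h3⟩ := e.weight_le
    obtain ⟨h4, h5, h6⟩ := f.weight_le
    simp only [Expr.weight, Expr.size]
    refine ⟨?_, by omega, by omega⟩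
    nlinarith
  | _, .star e => by
    obtain ⟨h1, h2, h3⟩ := e.weight_le
    simp only [Expr.weight, Expr.size]
    refine ⟨?_, by omega, by omega⟩
    nlinarith
  | _, .rev e => by
    obtain ⟨h1, h2, h3⟩ := e.weight_le
    simp only [Expr.weight, Expr.size]
    refine ⟨?_, by omega, by omega⟩
    nlinarith
  | A, .trans T _ _ _ _ e => by
    obtain ⟨h1, h2, h3⟩ := e.weight_le
    have h4 : Nat.clog 2 (Nat.card T) ≤ Nat.card T :=
      Nat.clog_le_of_le_pow (Nat.lt_two_pow_self).le
    simp only [Expr.weight, Expr.size]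
    refine ⟨?_, by omega, by omega⟩
    calc e.weight + Nat.clog 2 (Nat.card T) ≤ e.size ^ 2 + Nat.card T := Nat.add_le_add h1 h4
      _ ≤ (e.size + Nat.card T) ^ 2 := by nlinarith
      _ ≤ (e.size + Nat.card T + Nat.card A + 1) ^ 2 := Nat.pow_le_pow_left (by omega) 2

/-- A 1-limited automaton with `q` states. -/
theorem acc_la {A : Type} (strict : Prop) (M : LimAut A) :
    Acc (M.language strict) (2 ^ (Nat.card M.Q ^ 2 + Nat.card M.Q)) := by
  have hfin : Finite (Set (M.Q × M.Q) × M.Q) := by
    have := M.finQ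
    infer_instance
  have key : ∀ (w : List A) (x y : Set (M.Q × M.Q) × M.Q),
      Pth (fun a => nstep strict M (.sym (M.inp a))) w x y ↔ runs strict M w x y := by
    intro w
    induction w with
    | nil => intro x y; exact Iff.rfl
    | cons a w ih =>
      intro x y
      constructor
      · rintro ⟨z, hz, hp⟩
        exact ⟨z, hz, (ih _ _).1 hp⟩
      · rintro ⟨z, hz, hp⟩
        exact ⟨z, hz, (ih _ _).2 hp⟩
  refine ⟨Set (M.Q × M.Q) × M.Q, hfin, {x0 strict M}, {y | finX strict M y},
    fun a => nstep strict M (.sym (M.inp a)), ?_, fun w => ?_⟩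
  · rw [card_table, pow_add, sq]
    exact Nat.mul_le_mul_left _ (Nat.lt_two_pow_self).le
  · rw [mem_language_runs]
    constructor
    · rintro ⟨y, hy, hf⟩
      exact ⟨_, rfl, y, hf, (key _ _ _).2 hy⟩
    · rintro ⟨_, rfl, y, hf, hp⟩
      exact ⟨y, (key _ _ _).1 hp, hf⟩

/-- A one-way nondeterministic automaton. -/
theorem acc_nfa {A S : Type} (hS : Finite S) (X : NFA A S) :
    Acc {w | w ∈ X.accepts} (2 ^ (Nat.clog 2 (Nat.card S) + 1)) := by
  have key : ∀ (w : List A) (T : Set S) (y : S), y ∈ X.evalFrom T w ↔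
      ∃ x ∈ T, Pth (fun a x y => y ∈ X.step x a) w x y := by
    intro w
    induction w with
    | nil =>
      intro T y
      rw [NFA.evalFrom_nil]
      exact ⟨fun h => ⟨y, h, rfl⟩, by rintro ⟨x, h, h'⟩; cases (show x = y from h'); exact h⟩
    | cons a w ih =>
      intro T y
      rw [NFA.evalFrom_cons, ih]
      constructor
      · rintro ⟨x, hx, h⟩
        rw [NFA.mem_stepSet] at hx
        obtain ⟨s, hs, hz⟩ := hx
        exact ⟨s, hs, x, hz, h⟩
      · rintro ⟨x, hx, z, hz, h⟩
        refine ⟨z, ?_, h⟩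
        rw [NFA.mem_stepSet]
        exact ⟨x, hx, hz⟩
  refine ⟨S, hS, X.start, X.accept, fun a x y => y ∈ X.step x a, ?_, fun w => ?_⟩
  · calc Nat.card S ≤ 2 ^ Nat.clog 2 (Nat.card S) := Nat.le_pow_clog (by norm_num) _
      _ ≤ 2 ^ (Nat.clog 2 (Nat.card S) + 1) := Nat.pow_le_pow_right (by norm_num) (by omega)
  · show (∃ s ∈ X.accept, s ∈ X.evalFrom X.start w) ↔ _
    constructor
    · rintro ⟨y, hy, h⟩
      obtain ⟨x, hx, hp⟩ := (key _ _ _).1 h
      exact ⟨x, hx, y, hy, hp⟩
    · rintro ⟨x, hx, y, hy, hp⟩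
      exact ⟨y, hy, (key _ _ _).2 ⟨x, hx, hp⟩⟩

theorem two_pow_add_le (a b : ℕ) (ha : 1 ≤ a) (hb : 1 ≤ b) : 2 ^ a + 2 ^ b ≤ 2 ^ (a + b) := by
  have h1 : 2 ≤ 2 ^ a := by
    calc 2 = 2 ^ 1 := by norm_num
      _ ≤ 2 ^ a := Nat.pow_le_pow_right (by norm_num) ha
  have h2 : 2 ≤ 2 ^ b := by
    calc 2 = 2 ^ 1 := by norm_num
      _ ≤ 2 ^ b := Nat.pow_le_pow_right (by norm_num) hb
  rw [pow_add]
  nlinarith

/-- Every expression has a one-way nondeterministic automaton with `2 ^ weight` states. -/
theorem Expr.acc (strict : Prop) : ∀ {A : Type} (e : Expr A), Acc (e.lang strict) (2 ^ e.weight)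
  | _, .la M => acc_la strict M
  | _, .nfa _ hS X => acc_nfa hS X
  | _, .union e f => ((e.acc strict).union (f.acc strict)).mono
      (two_pow_add_le _ _ e.weight_pos f.weight_pos)
  | _, .inter e f => ((e.acc strict).inter (f.acc strict)).mono (pow_add 2 _ _).symm.le
  | _, .conc e f => ((e.acc strict).conc (f.acc strict)).mono
      (two_pow_add_le _ _ e.weight_pos f.weight_pos)
  | _, .shuffle e f => ((e.acc strict).shuffle (f.acc strict)).mono (pow_add 2 _ _).symm.le
  | _, .star e => (e.acc strict).star.mono (by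
      simp only [Expr.weight]
      have := Nat.one_le_two_pow (n := e.weight)
      rw [pow_succ]
      omega)
  | _, .rev e => (e.acc strict).rev
  | _, .trans T _ R P Q e => ((e.acc strict).trans R P Q).mono (by
      simp only [Expr.weight]
      rw [pow_add]
      exact Nat.mul_le_mul_left _ (Nat.le_pow_clog (by norm_num) _))

open Pool.Agent.R620.KV in
/-- Determinization of Boolean combinations of the languages of one-way automata. -/
theorem det_acc {A : Type} [Finite A] {n : ℕ} (L : Fin n → Set (List A)) (W : Fin n → ℕ)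
    (hW : ∀ i, 1 ≤ W i) (hL : ∀ i, Acc (L i) (2 ^ W i)) (F : (Fin n → Prop) → Prop) :
    ∃ M' : LimAut A, M'.Deterministic ∧
      (∀ (strict' : Prop) (w : List A), w ∈ M'.language strict' ↔ F (fun i => w ∈ L i)) ∧
      Nat.card M'.Q ≤ 2 ^ ((∑ i, W i + 5) ^ 2) ∧ Nat.card M'.W = 3 * Nat.card A + 1 ∧
      M'.size ≤ 2 ^ ((∑ i, W i + 5) ^ 2) * (Nat.card A + 1) ∧
      ∀ (strict' : Prop) (w : List A) (k : ℕ) (c : Cfg M'),
        Steps (Step strict' w.length) k (init M' w) c → k ≤ Nat.card M'.Q * (w.length + 1) := by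
  choose X hX I G s hcard hs using hL
  have hn : n ≤ ∑ i, W i := by
    calc n = ∑ _i : Fin n, 1 := by simp
      _ ≤ ∑ i, W i := Finset.sum_le_sum (fun i _ => hW i)
  have hsum : ∀ t : Finset (Fin n), ∑ i ∈ t, 2 ^ W i ≤ 2 ^ (∑ i ∈ t, W i) := by
    intro t
    classical
    induction t using Finset.induction_on with
    | empty => simp
    | insert i t hi ih =>
      rw [Finset.sum_insert hi, Finset.sum_insert hi]
      rcases Nat.eq_zero_or_pos (∑ j ∈ t, W j) with h0 | h0
      · have ht : t = ∅ := by
          by_contra hne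
          obtain ⟨j, hj⟩ := Finset.nonempty_iff_ne_empty.2 hne
          have := Finset.single_le_sum (f := W) (fun _ _ => Nat.zero_le _) hj
          have := hW j
          omega
        subst ht
        simp
      · exact (Nat.add_le_add_left ih _).trans (two_pow_add_le _ _ (hW i) h0)
  have hr : ∑ i, Nat.card (X i) + 1 ≤ 2 ^ (∑ i, W i + 1) := by
    have h1 : ∑ i, Nat.card (X i) ≤ 2 ^ (∑ i, W i) :=
      (Finset.sum_le_sum (fun i _ => hcard i)).trans (hsum Finset.univ)
    have h2 := Nat.one_le_two_pow (n := ∑ i, W i)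
    rw [pow_succ]
    omega
  obtain ⟨M', h1, h2, h3, h4, h5, h6⟩ := comb_nfa X
    (fun i a o y => match o with
      | none => ∃ x ∈ I i, s i a x y
      | some x => s i a x y)
    (fun i o => match o with
      | none => ∃ x ∈ I i, x ∈ G i
      | some x => x ∈ G i) F (∑ i, W i + 1) (by omega) hr
  have key : ∀ (i : Fin n) (w : List A) (x y : X i),
      Rn (fun a o y => match o with
        | none => ∃ x ∈ I i, s i a x y
        | some x => s i a x y) w (some x) (some y) ↔ Pth (s i) w x y := by
    intro i w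
    induction w with
    | nil =>
      intro x y
      exact ⟨fun h => Option.some.inj h, fun h => congrArg some h⟩
    | cons a w ih =>
      intro x y
      constructor
      · rintro ⟨z, hz, hp⟩
        exact ⟨z, hz, (ih _ _).1 hp⟩
      · rintro ⟨z, hz, hp⟩
        exact ⟨z, hz, (ih _ _).2 hp⟩
  have keyN : ∀ (i : Fin n) (w : List A) (x : X i),
      ¬ Rn (fun a o y => match o with
        | none => ∃ x ∈ I i, s i a x y
        | some x => s i a x y) w (some x) none := by
    intro i w
    induction w with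
    | nil =>
      intro x h
      exact absurd h (by simp [Rn])
    | cons a w ih =>
      rintro x ⟨z, hz, hp⟩
      exact ih z hp
  refine ⟨M', h1, fun strict' w => ?_, h3.trans (Nat.pow_le_pow_right (by norm_num) ?_), h4,
    h5.trans (Nat.mul_le_mul_right _ (Nat.pow_le_pow_right (by norm_num) ?_)), h6⟩
  · rw [h2]
    have e : ∀ i, (∃ y, Rn (fun a o y => match o with
        | none => ∃ x ∈ I i, s i a x y
        | some x => s i a x y) w none y ∧ (match y with
        | none => ∃ x ∈ I i, x ∈ G i
        | some x => x ∈ G i)) = (w ∈ L i) := by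
      intro i
      rw [eq_iff_iff, hs]
      cases w with
      | nil =>
        constructor
        · rintro ⟨y, hy, hg⟩
          have hy' : none = y := hy
          subst hy'
          obtain ⟨x, hx, hg⟩ := hg
          exact ⟨x, hx, x, hg, rfl⟩
        · rintro ⟨x, hx, y, hy, hp⟩
          have hp' : x = y := hp
          subst hp'
          exact ⟨none, rfl, x, hx, hy⟩
      | cons a w =>
        constructor
        · rintro ⟨y, ⟨z, ⟨x, hx, hz⟩, hp⟩, hg⟩
          cases y with
          | none => exact absurd hp (keyN i w z)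
          | some y => exact ⟨x, hx, y, hg, z, hz, (key i w z y).1 hp⟩
        · rintro ⟨x, hx, y, hy, z, hz, hp⟩
          exact ⟨some y, ⟨z, ⟨x, hx, hz⟩, (key i w z y).2 hp⟩, hy⟩
    rw [funext e]
  · nlinarith
  · nlinarith

/-- The values `detSize L(e)`, for the expressions `e` of size at most `n`. -/
def costsE (strict : Prop) (n : ℕ) : Set ℕ :=
  {s | ∃ (A : Type) (_ : Finite A) (e : Expr A), e.size ≤ n ∧
    s = detSize strict (e.lang strict)}

/-- The cost of the conversion of expressions of size at most `n`. -/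
noncomputable def DE (strict : Prop) (n : ℕ) : ℕ := sSup (costsE strict n)

theorem detSize_expr {A : Type} [Finite A] (strict : Prop) (e : Expr A) (n : ℕ)
    (hn : e.size ≤ n) : detSize strict (e.lang strict) ≤ 2 ^ ((n + 2) ^ 4) := by
  obtain ⟨M', h1, h2, _, _, h5, _⟩ := det_acc (n := 1) (fun _ => e.lang strict)
    (fun _ => e.weight) (fun _ => e.weight_pos) (fun _ => e.acc strict) (fun v => v 0)
  have h3 : M'.language strict = e.lang strict := Set.ext (h2 strict)
  have h4 : detSize strict (e.lang strict) ≤ M'.size := Nat.sInf_le ⟨M', h1, h3, rfl⟩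
  obtain ⟨h6, h7, h8⟩ := e.weight_le
  refine h4.trans (h5.trans ?_)
  rw [Finset.univ_unique, Finset.sum_singleton]
  have h9 : e.weight ≤ n ^ 2 := h6.trans (Nat.pow_le_pow_left hn 2)
  have h10 : Nat.card A + 1 ≤ 2 ^ (n + 1) := by
    have := Nat.lt_two_pow_self (n := n + 1)
    omega
  have hn1 : 1 ≤ n := by omega
  calc 2 ^ ((e.weight + 5) ^ 2) * (Nat.card A + 1)
      ≤ 2 ^ ((n ^ 2 + 5) ^ 2) * 2 ^ (n + 1) :=
        Nat.mul_le_mul (Nat.pow_le_pow_right (by norm_num)
          (Nat.pow_le_pow_left (by omega) 2)) h10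
    _ = 2 ^ ((n ^ 2 + 5) ^ 2 + (n + 1)) := by rw [← pow_add]
    _ ≤ 2 ^ ((n + 2) ^ 4) := by
        apply Nat.pow_le_pow_right (by norm_num)
        have e1 : (n + 2) ^ 4 = (n ^ 2 + 5) ^ 2 + (8 * n ^ 3 + 14 * n ^ 2 + 32 * n) - 9 := by
          have : (n + 2) ^ 4 + 9 = (n ^ 2 + 5) ^ 2 + (8 * n ^ 3 + 14 * n ^ 2 + 32 * n) := by ring
          omega
        have e2 : n ≤ 14 * n ^ 2 := by nlinarith
        omega

theorem bddE (strict : Prop) (n : ℕ) : BddAbove (costsE strict n) := by
  refine ⟨2 ^ ((n + 2) ^ 4), ?_⟩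
  rintro s ⟨A, hA, e, he, rfl⟩
  exact detSize_expr strict e n he

theorem costs_sub (strict : Prop) (n : ℕ) : costs strict n ⊆ costsE strict n := by
  rintro s ⟨A, hA, M, hM, rfl⟩
  exact ⟨A, hA, .la M, hM, rfl⟩

theorem D_le_DE (strict : Prop) (n : ℕ) : D strict n ≤ DE strict n := by
  rcases (costs strict n).eq_empty_or_nonempty with h | h
  · unfold D
    rw [h]
    simp
  · exact csSup_le_csSup (bddE strict n) h (costs_sub strict n)

theorem costsE_nonempty (strict : Prop) (n : ℕ) (hn : 1 ≤ n) : (costsE strict n).Nonempty := by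
  refine ⟨_, Empty, inferInstance, .nfa Empty inferInstance ⟨fun _ _ => ∅, ∅, ∅⟩, ?_, rfl⟩
  simp only [Expr.size, Nat.card_of_isEmpty]
  omega

theorem DE_greatest (strict : Prop) (n : ℕ) (hn : 1 ≤ n) :
    IsGreatest (costsE strict n) (DE strict n) :=
  ⟨Nat.sSup_mem (costsE_nonempty strict n hn) (bddE strict n),
    fun _ hs => le_csSup (bddE strict n) hs⟩

theorem DE_le (strict : Prop) (n : ℕ) : DE strict n ≤ 2 ^ ((n + 2) ^ 4) := by
  rcases (costsE strict n).eq_empty_or_nonempty with h | h
  · unfold DE
    rw [h]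
    simp
  · refine csSup_le h ?_
    rintro s ⟨A, hA, e, he, rfl⟩
    exact detSize_expr strict e n he

/-- The expressions without 1-limited automata. -/
def Expr.Plain : {A : Type} → Expr A → Prop
  | _, .la _ => False
  | _, .nfa _ _ _ => True
  | _, .union e f => e.Plain ∧ f.Plain
  | _, .inter e f => e.Plain ∧ f.Plain
  | _, .conc e f => e.Plain ∧ f.Plain
  | _, .shuffle e f => e.Plain ∧ f.Plain
  | _, .star e => e.Plain
  | _, .rev e => e.Plain
  | _, .trans _ _ _ _ _ e => e.Plain

theorem Expr.plain_weight : ∀ {A : Type} (e : Expr A), e.Plain → e.weight ≤ e.size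
  | _, .la M, h => h.elim
  | _, .nfa S _ _, _ => by
    have h1 : Nat.clog 2 (Nat.card S) ≤ Nat.card S :=
      Nat.clog_le_of_le_pow (Nat.lt_two_pow_self).le
    simp only [Expr.weight, Expr.size]
    omega
  | _, .union e f, h => by
    have h1 := e.plain_weight h.1
    have h2 := f.plain_weight h.2
    simp only [Expr.weight, Expr.size]
    omega
  | _, .inter e f, h => by
    have h1 := e.plain_weight h.1
    have h2 := f.plain_weight h.2
    simp only [Expr.weight, Expr.size]
    omega
  | _, .conc e f, h => by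
    have h1 := e.plain_weight h.1
    have h2 := f.plain_weight h.2
    simp only [Expr.weight, Expr.size]
    omega
  | _, .shuffle e f, h => by
    have h1 := e.plain_weight h.1
    have h2 := f.plain_weight h.2
    simp only [Expr.weight, Expr.size]
    omega
  | _, .star e, h => by
    have h1 := e.plain_weight h
    simp only [Expr.weight, Expr.size]
    omega
  | _, .rev e, h => by
    have h1 := e.plain_weight h
    simp only [Expr.weight, Expr.size]
    omega
  | _, .trans T _ _ _ _ e, h => by
    have h1 := e.plain_weight h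
    have h2 : Nat.clog 2 (Nat.card T) ≤ Nat.card T :=
      Nat.clog_le_of_le_pow (Nat.lt_two_pow_self).le
    simp only [Expr.weight, Expr.size]
    omega

theorem detSize_plain {A : Type} [Finite A] (strict : Prop) (e : Expr A) (h : e.Plain) :
    detSize strict (e.lang strict) ≤ 2 ^ ((e.size + 6) ^ 2) := by
  obtain ⟨M', h1, h2, _, _, h5, _⟩ := det_acc (n := 1) (fun _ => e.lang strict)
    (fun _ => e.weight) (fun _ => e.weight_pos) (fun _ => e.acc strict) (fun v => v 0)
  have h3 : M'.language strict = e.lang strict := Set.ext (h2 strict)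
  have h4 : detSize strict (e.lang strict) ≤ M'.size := Nat.sInf_le ⟨M', h1, h3, rfl⟩
  obtain ⟨_, h7, h8⟩ := e.weight_le
  refine h4.trans (h5.trans ?_)
  rw [Finset.univ_unique, Finset.sum_singleton]
  have h9 : e.weight ≤ e.size := e.plain_weight h
  have h10 : Nat.card A + 1 ≤ 2 ^ (e.size + 1) := by
    have := Nat.lt_two_pow_self (n := e.size + 1)
    omega
  calc 2 ^ ((e.weight + 5) ^ 2) * (Nat.card A + 1)
      ≤ 2 ^ ((e.size + 5) ^ 2) * 2 ^ (e.size + 1) :=
        Nat.mul_le_mul (Nat.pow_le_pow_right (by norm_num)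
          (Nat.pow_le_pow_left (by omega) 2)) h10
    _ = 2 ^ ((e.size + 5) ^ 2 + (e.size + 1)) := by rw [← pow_add]
    _ ≤ 2 ^ ((e.size + 6) ^ 2) := by
        apply Nat.pow_le_pow_right (by norm_num)
        nlinarith

end Pool.Agent.R50.LX
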